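import Pool.Agent.Helper13.TR.StC

/-!
# Project TR: module SUS
-/

set_option autoImplicit false

namespace Pool.Agent.Helper87.TR

open Set Topology Pool.Agent.Helper13.TR

section basics

variable {X : Type} [TopologicalSpace X]

private theorem mem_cin {S : Set X} {n : ℕ} {c : Ch X n} :
    c ∈ cin S n ↔ ∀ σ ∈ c.support, range σ ⊆ S := by
  unfold cin
  rw [Finsupp.mem_supported]
  rfl

private theorem dl_conn (n : ℕ) : PreconnectedSpace (Dl n) :=
  Subtype.preconnectedSpace (convex_stdSimplex ℝ (Fin (n + 1))).isPreconnected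

private theorem rg_ne {n : ℕ} (σ : Sx X n) : (range σ).Nonempty :=
  ⟨σ (stdSimplex.vertex 0), mem_range_self _⟩

private theorem split_cin {O₁ O₂ : Set X} (h1 : IsOpen O₁) (h2 : IsOpen O₂) (hd : Disjoint O₁ O₂) {n : ℕ}
    {c : Ch X n} (hc : c ∈ cin (O₁ ∪ O₂) n) : ∃ a ∈ cin O₁ n, ∃ b ∈ cin O₂ n, c = a + b := by
  classical
  refine ⟨c.filter fun σ => range σ ⊆ O₁, ?_, c.filter fun σ => ¬ range σ ⊆ O₁, ?_,
    (Finsupp.filter_pos_add_filter_neg c _).symm⟩
  · rw [mem_cin]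
    intro σ hσ
    rw [Finsupp.support_filter, Finset.mem_filter] at hσ
    exact hσ.2
  · rw [mem_cin]
    intro σ hσ
    rw [Finsupp.support_filter, Finset.mem_filter] at hσ
    have hs := mem_cin.1 hc σ hσ.1
    haveI := dl_conn n
    rcases (isPreconnected_range σ.continuous).subset_or_subset h1 h2 hd hs with h | h
    · exact absurd h hσ.2
    · exact h

private theorem sep_cin {S T O : Set X} (hd : Disjoint S T) {n : ℕ} {a b : Ch X n} (ha : a ∈ cin S n)
    (hb : b ∈ cin T n) (hab : a + b ∈ cin O n) : a ∈ cin O n := by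
  rw [mem_cin] at ha hb hab ⊢
  intro σ hσ
  apply hab
  rw [Finsupp.mem_support_iff, Finsupp.add_apply]
  have : b σ = 0 := by
    by_contra h
    have h1 := hb σ (Finsupp.mem_support_iff.2 h)
    have h2 := ha σ hσ
    obtain ⟨x, hx⟩ := rg_ne σ
    exact Set.disjoint_left.1 hd (h2 hx) (h1 hx)
  rw [this, add_zero]
  exact Finsupp.mem_support_iff.1 hσ

private theorem push_id {n : ℕ} (c : Ch X n) : push (ContinuousMap.id X) n c = c := by
  have e : push (ContinuousMap.id X) n = LinearMap.id := by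
    unfold push
    have : (fun σ : Sx X n => (ContinuousMap.id X).comp σ) = id := by
      funext σ
      exact ContinuousMap.id_comp σ
    rw [this]
    exact Finsupp.lmapDomain_id ℤ ℤ
  rw [e]
  rfl

private theorem mem_nul {B : Set X} {n : ℕ} {c : Ch X n} :
    c ∈ Nul B n ↔ ∃ a ∈ cin Bᶜ n, ∃ b : Ch X (n + 1), c = a + bd n b := by
  unfold Nul
  rw [Submodule.mem_sup]
  constructor
  · rintro ⟨a, ha, z, ⟨b, rfl⟩, h⟩
    exact ⟨a, ha, b, h.symm⟩
  · rintro ⟨a, ha, b, h⟩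
    exact ⟨a, ha, bd n b, ⟨b, rfl⟩, h.symm⟩

end basics

section sus

variable {Y : Type} [TopologicalSpace Y]

/-- the projection -/
private def pr : C(ℝ × Y, Y) := ⟨Prod.snd, continuous_snd⟩

/-- the section at height `s` -/
private def jj (s : ℝ) : C(Y, ℝ × Y) := ⟨fun z => (s, z), by fun_prop⟩

/-- the translation -/
private def tr (M : ℝ) : C(ℝ × Y, ℝ × Y) := ⟨fun p => (p.1 + M, p.2), by fun_prop⟩

private def hom1 (s : ℝ) : (ContinuousMap.id (ℝ × Y)).Homotopy ((jj s).comp pr) where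
  toFun q := ((1 - (q.1 : ℝ)) * q.2.1 + q.1 * s, q.2.2)
  continuous_toFun := by fun_prop
  map_zero_left p := by simp
  map_one_left p := by simp [jj, pr]

private def hom2 (M : ℝ) : (ContinuousMap.id (ℝ × Y)).Homotopy (tr M) where
  toFun q := (q.2.1 + q.1 * M, q.2.2)
  continuous_toFun := by fun_prop
  map_zero_left p := by simp
  map_one_left p := by simp [tr]

/-- the cone step -/
private theorem half (hPRI : StPRI) (hPSH : StPSH) (hMON : StMON) (y : Y) (k : ℕ) (hy : PP {y} k) {s : ℝ}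
    (hs : s ≠ 0) {u : Ch (ℝ × Y) k} (hu : u ∈ cin {p : ℝ × Y | 0 < s * p.1} k)
    (hb : ∀ j (hj : k = j + 1), bd j (hj ▸ u) ∈ cin {p : ℝ × Y | p.2 ≠ y} j) :
    ∃ b ∈ cin {p : ℝ × Y | 0 < s * p.1} (k + 1), ∃ r ∈ cin {p : ℝ × Y | p.2 ≠ y} k, u = bd k b + r := by
  obtain ⟨P, hP0, hP1, hP2⟩ := hPRI (ℝ × Y) (ℝ × Y) (ContinuousMap.id _) ((jj s).comp pr) (hom1 s)
  have ppr := hPSH (ℝ × Y) Y (ℝ × Y) pr (jj s)
  have pj := hPSH Y (ℝ × Y) (ℝ × Y) (jj s) (ContinuousMap.id _)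
  have mon := (hMON (ℝ × Y)).1
  -- the projection is a relative cycle
  have hcyc : push pr k u ∈ Cyc {y} k := by
    cases k with
    | zero => exact Submodule.mem_top
    | succ j =>
      show bd j (push pr (j + 1) u) ∈ cin {y}ᶜ j
      rw [ppr.1]
      exact ppr.2.2.1 {y}ᶜ j _ (hb j rfl)
  obtain ⟨ρ, hρ, b, hρb⟩ := mem_nul.1 (hy hcyc)
  have hPu : P k u ∈ cin {p : ℝ × Y | 0 < s * p.1} (k + 1) := by
    refine mon _ _ _ ?_ (hP2 _ k u hu)
    rintro q ⟨x, hx, t, rfl⟩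
    show 0 < s * ((1 - (t : ℝ)) * x.1 + t * s)
    have hx' : 0 < s * x.1 := hx
    have ht0 : 0 ≤ (t : ℝ) := t.2.1
    have ht1 : (t : ℝ) ≤ 1 := t.2.2
    have e : s * ((1 - (t : ℝ)) * x.1 + t * s) = (1 - t) * (s * x.1) + t * (s * s) := by ring
    rw [e]
    have hss : 0 < s * s := mul_self_pos.2 hs
    rcases eq_or_lt_of_le ht0 with h0 | h0
    · rw [← h0]; linarith
    · have h1 := mul_nonneg (sub_nonneg.2 ht1) hx'.le
      have h2 := mul_pos h0 hss
      linarith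
  have hjb : push (jj s) (k + 1) b ∈ cin {p : ℝ × Y | 0 < s * p.1} (k + 1) := by
    refine pj.2.2.1 _ _ _ ?_
    have : (jj s : C(Y, ℝ × Y)) ⁻¹' {p : ℝ × Y | 0 < s * p.1} = univ := by
      ext z
      simp only [mem_preimage, mem_setOf_eq, mem_univ, iff_true]
      exact mul_self_pos.2 hs
    rw [this, (hMON Y).2.2.1]
    exact Submodule.mem_top
  have hjρ : push (jj s) k ρ ∈ cin {p : ℝ × Y | p.2 ≠ y} k := by
    refine pj.2.2.1 _ _ _ ?_
    exact hρ
  have hcomp : push ((jj s).comp pr) k u = push (jj s) k ρ + bd k (push (jj s) (k + 1) b) := by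
    rw [ppr.2.1, hρb, map_add, pj.1]
  cases k with
  | zero =>
    refine ⟨push (jj s) 1 b - P 0 u, Submodule.sub_mem _ hjb hPu, push (jj s) 0 ρ, hjρ, ?_⟩
    have h1 := hP0 u
    rw [push_id, hcomp] at h1
    rw [map_sub, h1]
    abel
  | succ j =>
    have hPb : P j (bd j u) ∈ cin {p : ℝ × Y | p.2 ≠ y} (j + 1) := by
      refine mon _ _ _ ?_ (hP2 _ j _ (hb j rfl))
      rintro q ⟨x, hx, t, rfl⟩
      exact hx
    refine ⟨push (jj s) (j + 2) b - P (j + 1) u, Submodule.sub_mem _ hjb hPu,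
      push (jj s) (j + 1) ρ - P j (bd j u), Submodule.sub_mem _ hjρ hPb, ?_⟩
    have h1 := hP1 j u
    rw [push_id, hcomp] at h1
    have h2 : bd (j + 1) (P (j + 1) u) = push (jj s) (j + 1) ρ +
        bd (j + 1) (push (jj s) (j + 1 + 1) b) - u - P j (bd j u) := by
      rw [← h1]; abel
    rw [map_sub, h2]
    abel

end sus

theorem hSUS (hSM : StSM) (hSDA : StSDA) (hPRI : StPRI) (hPSH : StPSH) (hMON : StMON) (hCON : StCON) :
    StSUS := by
  intro Y _ _ y k hy c hc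
  have mon := hMON (ℝ × Y)
  set x₀ : ℝ × Y := (0, y) with hx₀
  set O₂ : Set (ℝ × Y) := {p | p.2 ≠ y} with hO₂
  set Op : Set (ℝ × Y) := {p | 0 < (1 : ℝ) * p.1} with hOp
  set Om : Set (ℝ × Y) := {p | 0 < (-1 : ℝ) * p.1} with hOm
  have op : IsOpen Op := isOpen_lt continuous_const (continuous_const.mul continuous_fst)
  have om : IsOpen Om := isOpen_lt continuous_const (continuous_const.mul continuous_fst)
  have o2 : IsOpen O₂ := isOpen_ne.preimage continuous_snd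
  have hdis : Disjoint Op Om := by
    rw [Set.disjoint_left]
    intro p hp hm
    have h1 : 0 < (1 : ℝ) * p.1 := hp
    have h2 : 0 < (-1 : ℝ) * p.1 := hm
    linarith
  have hun : Op ∪ Om ∪ O₂ = {x₀}ᶜ := by
    ext p
    simp only [mem_union, mem_compl_iff, mem_singleton_iff, hOp, hOm, hO₂, mem_setOf_eq, hx₀,
      Prod.ext_iff, one_mul, neg_one_mul, neg_pos]
    constructor
    · rintro ((h | h) | h) ⟨h1, h2⟩
      · linarith
      · linarith
      · exact h h2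
    · intro h
      by_cases h2 : p.2 = y
      · left
        have h1 : p.1 ≠ 0 := fun h1 => h ⟨h1, h2⟩
        rcases lt_or_gt_of_ne h1 with h3 | h3
        · exact Or.inr h3
        · exact Or.inl h3
      · exact Or.inr h2
  have hcin : bd k c ∈ cin (Op ∪ Om ∪ O₂) k := by rw [hun]; exact hc
  -- small chains
  have hbd : bd k c ∈ BdIn (fun k => cin (Op ∪ Om) k ⊔ cin O₂ k) k := by
    cases k with
    | zero => exact Submodule.mem_top
    | succ j =>
      show bd j (bd (j + 1) c) ∈ cin (Op ∪ Om) j ⊔ cin O₂ j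
      rw [(hSDA (ℝ × Y)).1]
      exact Submodule.zero_mem _
  obtain ⟨u₁, hu₁, u₂, hu₂, e, he, hbc⟩ := hSM (ℝ × Y) (Op ∪ Om) O₂ (op.union om) o2 k _ hcin hbd
  obtain ⟨up, hup, um, hum, hu⟩ := split_cin op om hdis hu₁
  rw [hun] at he
  -- the boundary condition
  have key : ∀ j (hj : k = j + 1), bd j (hj ▸ up) ∈ cin O₂ j ∧ bd j (hj ▸ um) ∈ cin O₂ j := by
    rintro j rfl
    have h1 : bd j up + bd j um ∈ cin O₂ j := by
      have h2 : bd j (bd (j + 1) c) = 0 := (hSDA (ℝ × Y)).1 j c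
      rw [hbc, hu, map_add, map_add, map_add, (hSDA (ℝ × Y)).1, add_zero] at h2
      have h3 : bd j up + bd j um = -bd j u₂ := eq_neg_of_add_eq_zero_left h2
      rw [h3]
      exact Submodule.neg_mem _ (mon.2.2.2.1 _ _ _ hu₂)
    have a1 := mon.2.2.2.1 _ _ _ hup
    have a2 := mon.2.2.2.1 _ _ _ hum
    refine ⟨sep_cin hdis a1 a2 h1, ?_⟩
    rw [add_comm] at h1
    exact sep_cin hdis.symm a2 a1 h1
  obtain ⟨bp, hbp, rp, hrp, hp⟩ := half hPRI hPSH hMON y k hy (s := 1) one_ne_zero hup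
    fun j hj => (key j hj).1
  obtain ⟨bm, hbm, rm, hrm, hm⟩ := half hPRI hPSH hMON y k hy (s := -1) (by norm_num) hum
    fun j hj => (key j hj).2
  set d : Ch (ℝ × Y) (k + 1) := c - e - bp - bm with hd
  have hbdd : bd k d ∈ cin O₂ k := by
    have : bd k d = rp + rm + u₂ := by
      rw [hd, map_sub, map_sub, map_sub, hbc, hu, hp, hm]
      have h1 : bd k bp + rp = up := hp.symm
      abel
    rw [this]
    exact Submodule.add_mem _ (Submodule.add_mem _ hrp hrm) hu₂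
  -- push to the right
  obtain ⟨Q, hQ, hdQ, -⟩ := hCON.2 (ℝ × Y) (k + 1) d
  obtain ⟨M, hM⟩ := (hQ.image continuous_fst).bddBelow
  obtain ⟨P, hP0, hP1, hP2⟩ := hPRI (ℝ × Y) (ℝ × Y) (ContinuousMap.id _) (tr (1 - M)) (hom2 (1 - M))
  have hT : push (tr (1 - M)) (k + 1) d ∈ cin Op (k + 1) := by
    refine (hPSH (ℝ × Y) (ℝ × Y) (ℝ × Y) (tr (1 - M)) (ContinuousMap.id _)).2.2.1 _ _ _ ?_
    refine mon.1 _ _ _ ?_ hdQ
    intro p hp
    have h1 : M ≤ p.1 := hM ⟨p, hp, rfl⟩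
    show 0 < (1 : ℝ) * (p.1 + (1 - M))
    linarith
  have hPd : P k (bd k d) ∈ cin O₂ (k + 1) := by
    refine mon.1 _ _ _ ?_ (hP2 _ k _ hbdd)
    rintro q ⟨x, hx, t, rfl⟩
    exact hx
  have hO2 : O₂ ⊆ {x₀}ᶜ := by rw [← hun]; exact subset_union_right
  have hOps : Op ⊆ {x₀}ᶜ := by rw [← hun]; exact fun p hp => Or.inl (Or.inl hp)
  have hOms : Om ⊆ {x₀}ᶜ := by rw [← hun]; exact fun p hp => Or.inl (Or.inr hp)
  have h1 := hP1 k d
  rw [push_id] at h1
  rw [mem_nul]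
  refine ⟨push (tr (1 - M)) (k + 1) d - P k (bd k d) + e + bp + bm, ?_, -P (k + 1) d, ?_⟩
  · exact Submodule.add_mem _ (Submodule.add_mem _ (Submodule.add_mem _ (Submodule.sub_mem _
      (mon.1 _ _ _ hOps hT) (mon.1 _ _ _ hO2 hPd)) he) (mon.1 _ _ _ hOps hbp)) (mon.1 _ _ _ hOms hbm)
  · have h2 : push (tr (1 - M)) (k + 1) d = bd (k + 1) (P (k + 1) d) + P k (bd k d) + d := by
      rw [h1]; abel
    rw [h2, map_neg, hd]
    abel

end Pool.Agent.Helper87.TR
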